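import Mathlib
import Pool.Agent.W943.Cut.Def
import Pool.Agent.W943.Tw.Def

/-!
# Polynomial matrices of small path width and tree width in hidden coordinates
-/

namespace Pool.Agent.W943.Pm

open MvPolynomial Pool.Agent.W943.Cut Pool.Agent.W943.Tw

/-- The column space of the polynomial matrix `M`: the sum of the images of its coefficient
matrices. -/
def colSpace {N N' m : ℕ} (M : Matrix (Fin N) (Fin N') (MvPolynomial (Fin m) ℂ)) :
    Submodule ℂ (Fin N → ℂ) :=
  ⨆ α : Fin m →₀ ℕ, LinearMap.range (M.map (coeff α)).mulVecLin

/-- The cut of the family `A` of polynomial matrices across the set `T` of indices has dimension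
at most `w`: the sum of the column spaces of the `A_t` with `t ∈ T` and the sum of the column
spaces of the other `A_t` have an intersection of dimension at most `w`, and so have the row
spaces. -/
def CutLE {N N' m R : ℕ} (w : ℕ) (A : Fin R → Matrix (Fin N) (Fin N') (MvPolynomial (Fin m) ℂ))
    (T : Finset (Fin R)) : Prop :=
  Module.finrank ℂ ↥((⨆ t : Fin R, ⨆ _ : t ∈ T, colSpace (A t)) ⊓
    (⨆ t : Fin R, ⨆ _ : t ∉ T, colSpace (A t))) ≤ w ∧
  Module.finrank ℂ ↥((⨆ t : Fin R, ⨆ _ : t ∈ T, colSpace (A t).transpose) ⊓
    (⨆ t : Fin R, ⨆ _ : t ∉ T, colSpace (A t).transpose)) ≤ w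

/-- `Nice q P t` for a binary tree `t` whose leaves carry sets of indices: the sets of indices of
the two subtrees of each node are disjoint, `P` holds for the set of indices of each subtree, and
`q` holds for the sets of indices of the leaves. -/
def Nice {R : ℕ} (q P : Finset (Fin R) → Prop) : Tree R → Prop
  | .leaf S => q S ∧ P S
  | .node l r => Disjoint l.set r.set ∧ P (l.set ∪ r.set) ∧ Nice q P l ∧ Nice q P r

/-- `PathHidden k w M`: the polynomial matrix `M` is `∑_t A_t(φ(x))`, where `φ` is a tuple of
polynomials whose Jacobian matrix has a polynomial right inverse (for instance linearly independent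
linear forms), `A_t` is a matrix of polynomials in one variable `y_{a t}`, every variable is used in
at most `k` of these matrices, and the cuts of `A_0, …, A_{R-1}` across all initial segments have
dimension at most `w`. -/
def PathHidden {N N' n : ℕ} (k w : ℕ) (M : Matrix (Fin N) (Fin N') (MvPolynomial (Fin n) ℂ)) :
    Prop :=
  ∃ (m R : ℕ) (φ : Fin m → MvPolynomial (Fin n) ℂ) (a : Fin R → Fin m)
    (A : Fin R → Matrix (Fin N) (Fin N') (MvPolynomial (Fin m) ℂ)), Submersive φ ∧
    (∀ t i j, A t i j ∈ supported ℂ {a t}) ∧
    (∀ v, (Finset.univ.filter fun t => a t = v).card ≤ k) ∧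
    (∀ l : ℕ, CutLE w A (Finset.univ.filter fun t => t.val < l)) ∧
    M = (∑ t, A t).map (aeval φ)

/-- `TreeHidden b w M`: the polynomial matrix `M` is `∑_t A_t(φ(x))`, where `φ` is a tuple of
polynomials whose Jacobian matrix has a polynomial right inverse, the matrices `A_t` use disjoint
sets of variables (`y_v` may occur in `A_{c v}` only), and for some tree with disjoint leaves which
carries all indices `t`, such that each leaf involves at most `b` variables, the cuts across the
subtrees have dimension at most `w`. -/
def TreeHidden {N N' n : ℕ} (b w : ℕ) (M : Matrix (Fin N) (Fin N') (MvPolynomial (Fin n) ℂ)) :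
    Prop :=
  ∃ (m R : ℕ) (φ : Fin m → MvPolynomial (Fin n) ℂ) (c : Fin m → Fin R)
    (A : Fin R → Matrix (Fin N) (Fin N') (MvPolynomial (Fin m) ℂ)) (t : Tree R), Submersive φ ∧
    (∀ t i j, A t i j ∈ supported ℂ {v | c v = t}) ∧ t.set = Finset.univ ∧
    Nice (fun S => (Finset.univ.filter fun v => c v ∈ S).card ≤ b) (CutLE w A) t ∧
    M = (∑ t, A t).map (aeval φ)

end Pool.Agent.W943.Pm
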