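import Mathlib
import Pool.Agent.W943.Pm.Def
import Pool.Agent.W943.Nis6
import Pool.Agent.W943.Tw.T4

/-!
Determinants of families of matrices with polynomial coefficients: trees and paths.
-/

set_option autoImplicit false

namespace Pool.Agent.W943.Pm

open MvPolynomial Module Pool.Agent.W943.Cut Pool.Agent.W943.Tw

section tree

variable {R m : ℕ}

theorem Nice.prop {q P : Finset (Fin R) → Prop} {t : Tree R} (h : Nice q P t) :
    ∀ T ∈ t.sets, P T := by
  induction t with
  | leaf S => rintro T rfl; exact h.2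
  | node l r ihl ihr =>
    obtain ⟨_, h2, h3, h4⟩ := h
    rintro T (rfl | h | h)
    · exact h2
    · exact ihl h3 T h
    · exact ihr h4 T h

theorem Nice.laminar {q P : Finset (Fin R) → Prop} {t : Tree R} (h : Nice q P t) :
    ∀ T ∈ t.sets, ∀ T' ∈ t.sets, T' ⊆ T ∨ T ⊆ T' ∨ Disjoint T T' := by
  induction t with
  | leaf S => rintro T rfl T' rfl; exact Or.inl le_rfl
  | node l r ihl ihr =>
    obtain ⟨h1, _, h3, h4⟩ := h
    rintro T (rfl | h | h) T' (rfl | h' | h')
    · exact Or.inl le_rfl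
    · exact Or.inl ((l.sets_subset T' h').trans Finset.subset_union_left)
    · exact Or.inl ((r.sets_subset T' h').trans Finset.subset_union_right)
    · exact Or.inr (Or.inl ((l.sets_subset T h).trans Finset.subset_union_left))
    · exact ihl h3 T h T' h'
    · exact Or.inr (Or.inr (h1.mono (l.sets_subset T h) (r.sets_subset T' h')))
    · exact Or.inr (Or.inl ((r.sets_subset T h).trans Finset.subset_union_right))
    · exact Or.inr (Or.inr (h1.symm.mono (r.sets_subset T h) (l.sets_subset T' h')))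
    · exact ihr h4 T h T' h'

/-- the variables of the blocks in `S` -/
def vs (c : Fin m → Fin R) (S : Finset (Fin R)) : Finset (Fin m) :=
  Finset.univ.filter fun v => c v ∈ S

theorem mem_vs {c : Fin m → Fin R} {S : Finset (Fin R)} {v : Fin m} : v ∈ vs c S ↔ c v ∈ S := by
  simp [vs]

theorem vs_mono {c : Fin m → Fin R} {S T : Finset (Fin R)} (h : S ⊆ T) : vs c S ⊆ vs c T :=
  fun _ hv => mem_vs.2 (h (mem_vs.1 hv))

theorem vs_disjoint {c : Fin m → Fin R} {S T : Finset (Fin R)} (h : Disjoint S T) :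
    Disjoint (vs c S) (vs c T) := by
  rw [Finset.disjoint_left] at h ⊢
  exact fun v hv hv' => h (mem_vs.1 hv) (mem_vs.1 hv')

theorem vs_union (c : Fin m → Fin R) (S T : Finset (Fin R)) :
    vs c (S ∪ T) = vs c S ∪ vs c T := by
  ext v
  simp [mem_vs]

theorem vs_univ (c : Fin m → Fin R) : vs c Finset.univ = Finset.univ := by
  ext v
  simp [mem_vs]

theorem Nice.balanced {b : ℕ} {c : Fin m → Fin R} {P : Finset (Fin R) → Prop} {t : Tree R}
    (h : Nice (fun S => (Finset.univ.filter fun v => c v ∈ S).card ≤ b) P t)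
    (V : Finset (Fin m)) (hb : 3 * b ≤ 2 * V.card) (hV : 2 * V.card < 3 * (V ∩ vs c t.set).card) :
    ∃ T ∈ t.sets, V.card ≤ 3 * (V ∩ vs c T).card ∧ 3 * (V ∩ vs c T).card ≤ 2 * V.card := by
  induction t with
  | leaf S =>
    exfalso
    have h1 : (V ∩ vs c S).card ≤ b := (Finset.card_le_card Finset.inter_subset_right).trans h.1
    have h2 : (V ∩ vs c (Tw.Tree.leaf S).set).card = (V ∩ vs c S).card := rfl
    omega
  | node l r ihl ihr =>
    obtain ⟨h1, _, h3, h4⟩ := h
    have h5 : (V ∩ vs c (Tw.Tree.node l r).set).card =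
        (V ∩ vs c l.set).card + (V ∩ vs c r.set).card := by
      rw [show (Tw.Tree.node l r).set = l.set ∪ r.set from rfl, vs_union,
        Finset.inter_union_distrib_left]
      exact Finset.card_union_of_disjoint ((vs_disjoint h1).mono Finset.inter_subset_right
        Finset.inter_subset_right)
    rw [h5] at hV
    by_cases hl : 2 * V.card < 3 * (V ∩ vs c l.set).card
    · obtain ⟨T, hT, h6⟩ := ihl h3 hl
      exact ⟨T, Or.inr (Or.inl hT), h6⟩
    by_cases hr : 2 * V.card < 3 * (V ∩ vs c r.set).card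
    · obtain ⟨T, hT, h6⟩ := ihr h4 hr
      exact ⟨T, Or.inr (Or.inr hT), h6⟩
    by_cases hc : (V ∩ vs c l.set).card ≤ (V ∩ vs c r.set).card
    · exact ⟨r.set, Or.inr (Or.inr r.set_mem_sets), by omega, by omega⟩
    · exact ⟨l.set, Or.inr (Or.inl l.set_mem_sets), by omega, by omega⟩

variable {κ : Type*} [Fintype κ] {r : ℕ}

theorem tree_cls {b w k d : ℕ} (z : κ → MvPolynomial (Fin m) ℂ) (blk : κ → Fin R)
    (c : Fin m → Fin R) (hz : ∀ s, z s ∈ supported ℂ {v | c v = blk s})
    (B : κ → Matrix (Fin r) (Fin r) ℂ) {P : Finset (Fin R) → Prop} {t : Tree R}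
    (ht : t.set = Finset.univ)
    (hg : Nice (fun S => (Finset.univ.filter fun v => c v ∈ S).card ≤ b) P t)
    (hB : Width ((fun T : Finset (Fin R) => {s | blk s ∈ T}) '' t.sets) w B)
    (hb : 3 * b ≤ 2 * (k + 1)) (hm : 2 ^ d * m ≤ k * 3 ^ d) (h0 : (combo z B).det ≠ 0) :
    Cls m (k + (w.centralBinom - 1) * d) (combo z B).det := by
  classical
  refine laminar_mem ((fun T : Finset (Fin R) => (vs c T : Set (Fin m))) '' t.sets) ?_ k ?_
    (Nat.centralBinom_pos w) d Finset.univ _ ?_ ?_ ?_ h0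
  · rintro _ ⟨T, hT, rfl⟩ _ ⟨T', hT', rfl⟩
    rcases hg.laminar T hT T' hT' with h | h | h
    · exact Or.inl (Finset.coe_subset.2 (vs_mono h))
    · exact Or.inr (Or.inl (Finset.coe_subset.2 (vs_mono h)))
    · refine Or.inr (Or.inr ?_)
      rw [Set.subset_compl_iff_disjoint_left]
      exact Finset.disjoint_coe.2 (vs_disjoint h)
  · intro V hV
    obtain ⟨T, hT, h1, h2⟩ := hg.balanced V (by omega) (by
      rw [ht, vs_univ, Finset.inter_univ]
      omega)
    exact ⟨vs c T, ⟨T, hT, rfl⟩, h1, h2⟩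
  · rw [Finset.card_univ, Fintype.card_fin]
    exact hm
  · rw [Finset.coe_univ, supported_univ]
    trivial
  · rintro _ ⟨T, hT, rfl⟩
    refine rank_det z B {s | blk s ∈ T} (vs c T : Set (Fin m)) (fun s hs => ?_) (fun s hs => ?_) ?_
    · refine supported_mono ?_ (hz s)
      intro v hv
      rw [Finset.mem_coe, mem_vs, show c v = blk s from hv]
      exact hs
    · refine supported_mono ?_ (hz s)
      intro v hv hv'
      rw [Finset.mem_coe, mem_vs, show c v = blk s from hv] at hv'
      exact hs hv'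
    · constructor
      · rintro _ rfl
        exact hB.1 _ ⟨T, hT, rfl⟩
      · rintro _ rfl
        exact hB.2 _ ⟨T, hT, rfl⟩

end tree

section path

open Pool.Agent.H530R2 Pool.Agent.W943.Nis

variable {R n m w k : ℕ}

/-- polynomials with small cuts with the variables renamed -/
theorem mem_next_of_cutRank {f : MvPolynomial (Fin R) ℂ} (hf : CutRank (4 ^ w) f)
    (a : Fin R → Fin n) (ha : ∀ x, (Finset.univ.filter fun t => a t = x).card ≤ k) :
    aeval (fun t => (X (a t) : MvPolynomial (Fin n) ℂ)) f ∈ ((baseO ℂ).next).K n (dW w k) := by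
  classical
  obtain ⟨u, v, M, -, hM⟩ := nisan hf
    (fun t => if ht : t < R then degreeOf ⟨t, ht⟩ f else 0)
    (fun t ht => by rw [dif_pos ht])
  set z : ℕ → MvPolynomial (Fin n) ℂ := fun t => if ht : t < R then
    X (a ⟨t, ht⟩) else 0 with hz
  have hzt : ∀ t : Fin R, z t.val = X (a t) := by
    intro t
    rw [hz]
    simp only [dif_pos t.isLt]
  have h1 := hM z
  simp only [hzt] at h1
  rw [h1]
  have huni : ∀ t, ∀ ht : t < R, ∀ l j, (M t).map (Polynomial.aeval (z t)) l j =
      Polynomial.aeval (X (a ⟨t, ht⟩)) (M t l j) := by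
    intro t ht l j
    rw [Matrix.map_apply, ← hzt ⟨t, ht⟩]
  refine linear_mem (baseO ℂ) (W := 1) (k := k) u v _ R ?_ ?_
  · intro t ht l j
    rw [huni t ht]
    exact uni_mem _ _
  · intro x
    refine le_trans ?_ (ha x)
    rw [← Finset.card_map (⟨Fin.val, Fin.val_injective⟩ : Fin R ↪ ℕ)]
    apply Finset.card_le_card
    intro t ht
    obtain ⟨ht1, l, j, hlj⟩ := Finset.mem_filter.1 ht
    rw [Finset.mem_range] at ht1
    refine Finset.mem_map.2 ⟨⟨t, ht1⟩, Finset.mem_filter.2 ⟨Finset.mem_univ _, ?_⟩, rfl⟩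
    rw [huni t ht1] at hlj
    by_contra hne
    have h3 : Polynomial.aeval (X (a ⟨t, ht1⟩) : MvPolynomial (Fin n) ℂ)
        (M t l j) ∈ supported ℂ ({a ⟨t, ht1⟩} : Set (Fin n)) := by
      have h4 : (X (a ⟨t, ht1⟩) : MvPolynomial (Fin n) ℂ) ∈
          supported ℂ ({a ⟨t, ht1⟩} : Set (Fin n)) := X_mem_supported.2 rfl
      exact (Algebra.adjoin_le (S := supported ℂ ({a ⟨t, ht1⟩} : Set (Fin n)))
        (Set.singleton_subset_iff.2 h4)) (Polynomial.aeval_mem_adjoin_singleton ℂ _)
    exact hne ((mem_supported.1 h3) (Finset.mem_coe.2 hlj)).symm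

variable {κ : Type*} [Fintype κ] {r : ℕ}

theorem aeval_det_combo {N : ℕ} (φ : Fin m → MvPolynomial (Fin n) ℂ)
    (z : κ → MvPolynomial (Fin m) ℂ) (B : κ → Matrix (Fin N) (Fin N) ℂ) :
    aeval φ (Tw.combo z B).det = (Tw.combo (fun s => aeval φ (z s)) B).det := by
  rw [AlgHom.map_det]
  congr 1
  ext1 i j
  unfold Tw.combo
  simp only [AlgHom.mapMatrix_apply, Matrix.map_apply, Matrix.sum_apply, Matrix.smul_apply,
    map_sum, smul_eq_mul, map_mul]
  refine Finset.sum_congr rfl fun s _ => ?_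
  rw [aeval_C]
  rfl

theorem path_next (z : κ → MvPolynomial (Fin m) ℂ) (blk : κ → Fin R)
    (a : Fin R → Fin m) (hz : ∀ s, z s ∈ supported ℂ {a (blk s)})
    (ha : ∀ x, (Finset.univ.filter fun t => a t = x).card ≤ k)
    (B : κ → Matrix (Fin r) (Fin r) ℂ)
    (hB : Tw.Width (Set.range fun l : ℕ => {s | (blk s).val < l}) w B) :
    (Tw.combo z B).det ∈ ((baseO ℂ).next).K m (dW w k) := by
  classical
  set z' : κ → MvPolynomial (Fin R) ℂ := fun s => aeval (fun _ => X (blk s)) (z s) with hz'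
  have h1 : ∀ s, z' s ∈ supported ℂ ({blk s} : Set (Fin R)) := by
    intro s
    have h5 : aeval (fun _ : Fin m => (X (blk s) : MvPolynomial (Fin R) ℂ)) (z s) ∈
        supported ℂ ({blk s} : Set (Fin R)) :=
      aeval_mem_of (S := Set.univ) (g := fun _ : Fin m => (X (blk s) : MvPolynomial (Fin R) ℂ))
        (fun _ _ => X_mem_supported.2 (Set.mem_singleton _)) (by rw [supported_univ]; trivial)
    exact h5
  have h2 : CutRank (4 ^ w) (Tw.combo z' B).det := by
    intro l _
    have h5 : ∀ s ∈ ({s | (blk s).val < l} : Set κ),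
        z' s ∈ supported ℂ {t : Fin R | t.val < l} := by
      intro s hs
      have h9 : ({blk s} : Set (Fin R)) ⊆ {t : Fin R | t.val < l} :=
        Set.singleton_subset_iff.2 hs
      exact supported_mono h9 (h1 s)
    have h6 : ∀ s, s ∉ ({s | (blk s).val < l} : Set κ) →
        z' s ∈ supported ℂ {t : Fin R | t.val < l}ᶜ := by
      intro s hs
      have h9 : ({blk s} : Set (Fin R)) ⊆ {t : Fin R | t.val < l}ᶜ :=
        Set.singleton_subset_iff.2 hs
      exact supported_mono h9 (h1 s)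
    have h7 : Tw.Width {({s | (blk s).val < l} : Set κ)} w B := by
      constructor
      · rintro _ rfl
        exact hB.1 _ ⟨l, rfl⟩
      · rintro _ rfl
        exact hB.2 _ ⟨l, rfl⟩
    have h8 := rank_det z' B {s | (blk s).val < l} {t : Fin R | t.val < l} h5 h6 h7
    obtain ⟨p, q, hp, hq, hpq⟩ := h8
    refine ⟨Fin w.centralBinom, inferInstance, p, q, ?_, hp, hq, hpq⟩
    rw [Fintype.card_fin]
    exact (Nat.centralBinom_eq_two_mul_choose w).le.trans
      ((Nat.choose_le_two_pow _ _).trans (by rw [pow_mul]; norm_num))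
  have h3 := mem_next_of_cutRank h2 a ha
  rw [aeval_det_combo] at h3
  have h4 : (fun s => aeval (fun t => (X (a t) : MvPolynomial (Fin m) ℂ)) (z' s)) = z := by
    funext s
    rw [hz']
    show aeval (fun t => (X (a t) : MvPolynomial (Fin m) ℂ)) (aeval (fun _ => X (blk s)) (z s)) = _
    rw [← AlgHom.comp_apply, comp_aeval]
    simp only [aeval_X]
    rw [aeval_congr_of (g' := X) (fun i hi => by rw [show i = a (blk s) from hi]) (hz s),
      aeval_X_left_apply]
  rw [h4] at h3
  exact h3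

/-- determinants composed with submersive polynomial maps -/
theorem path_comp_notMem (z : κ → MvPolynomial (Fin m) ℂ) (blk : κ → Fin R)
    (a : Fin R → Fin m) (hz : ∀ s, z s ∈ supported ℂ {a (blk s)})
    (ha : ∀ x, (Finset.univ.filter fun t => a t = x).card ≤ k)
    (B : κ → Matrix (Fin r) (Fin r) ℂ)
    (hB : Tw.Width (Set.range fun l : ℕ => {s | (blk s).val < l}) w B) (V : DChain ℂ n)
    (φ : Fin m → MvPolynomial (Fin n) ℂ) (hφ : Submersive φ)
    (h0 : aeval φ (Tw.combo z B).det ≠ 0) :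
    aeval φ (Tw.combo z B).det ∉ V.I (sd ℂ w k) := by
  obtain ⟨E, hE⟩ := hφ
  have h1 : (1 : MvPolynomial (Fin n) ℂ) ∉ V.I 0 := by
    intro h
    exact (V.prime 0).ne_top ((Ideal.eq_top_iff_one _).2 h)
  intro hmem
  refine notMem_next (path_next z blk a hz ha B hB) (fun h => h0 (by rw [h, map_zero]))
    (V.pull φ E 1 hE 0 h1) ?_
  have h2 : aeval φ (Tw.combo z B).det ∈ V.I (0 + sd ℂ w k) := by rwa [zero_add]
  exact h2

end path

end Pool.Agent.W943.Pm
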