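import Mathlib
import Pool.Agent.W943.Pm.P1
import Pool.Agent.W943.Tw.T5

/-!
Families of polynomial matrices, the ranks of their values.
-/

set_option autoImplicit false

namespace Pool.Agent.W943.Pm

open MvPolynomial Module Pool.Agent.W943.Cut

section fam

variable {N N' m R : ℕ}

open Classical in
/-- all exponents which occur -/
noncomputable def expo (A : Fin R → Matrix (Fin N) (Fin N') (MvPolynomial (Fin m) ℂ)) :
    Finset (Fin m →₀ ℕ) :=
  Finset.univ.biUnion fun t => Finset.univ.biUnion fun i => Finset.univ.biUnion fun j =>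
    (A t i j).support

theorem mem_expo {A : Fin R → Matrix (Fin N) (Fin N') (MvPolynomial (Fin m) ℂ)} {t : Fin R}
    {i : Fin N} {j : Fin N'} {α : Fin m →₀ ℕ} (h : coeff α (A t i j) ≠ 0) : α ∈ expo A := by
  unfold expo
  refine Finset.mem_biUnion.2 ⟨t, Finset.mem_univ _, Finset.mem_biUnion.2 ⟨i, Finset.mem_univ _,
    Finset.mem_biUnion.2 ⟨j, Finset.mem_univ _, ?_⟩⟩⟩
  exact mem_support_iff.2 h

open Classical in
/-- the monomials -/
noncomputable def zf (U : Fin R → Set (Fin m)) (E : Finset (Fin m →₀ ℕ)) :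
    Fin R × E → MvPolynomial (Fin m) ℂ :=
  fun s => if (s.2.val.support : Set (Fin m)) ⊆ U s.1 then monomial s.2.val 1 else 0

/-- the coefficient matrices -/
noncomputable def bf (A : Fin R → Matrix (Fin N) (Fin N') (MvPolynomial (Fin m) ℂ))
    (E : Finset (Fin m →₀ ℕ)) : Fin R × E → Matrix (Fin N) (Fin N') ℂ :=
  fun s => (A s.1).map (coeff s.2.val)

theorem zf_mem (U : Fin R → Set (Fin m)) (E : Finset (Fin m →₀ ℕ)) (s : Fin R × E) :
    zf U E s ∈ supported ℂ (U s.1) := by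
  classical
  unfold zf
  split_ifs with h
  · rw [mem_supported]
    rw [vars_monomial one_ne_zero]
    exact h
  · exact Subalgebra.zero_mem _

theorem combo_fam (A : Fin R → Matrix (Fin N) (Fin N') (MvPolynomial (Fin m) ℂ))
    (U : Fin R → Set (Fin m)) (hU : ∀ t i j, A t i j ∈ supported ℂ (U t)) :
    Tw.combo (zf U (expo A)) (bf A (expo A)) = ∑ t, A t := by
  classical
  ext1 i j
  unfold Tw.combo
  rw [Matrix.sum_apply, Matrix.sum_apply, Fintype.sum_prod_type]
  refine Finset.sum_congr rfl fun t _ => ?_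
  have h1 : ∀ α : expo A, (zf U (expo A) (t, α) • (bf A (expo A) (t, α)).map C) i j =
      monomial α.val (coeff α.val (A t i j)) := by
    intro α
    rw [Matrix.smul_apply, Matrix.map_apply, smul_eq_mul]
    unfold zf bf
    dsimp only
    rw [Matrix.map_apply]
    split_ifs with h
    · rw [mul_comm, C_mul_monomial, mul_one]
    · rw [zero_mul]
      by_contra hne
      apply h
      have h2 : coeff α.val (A t i j) ≠ 0 := by
        intro h3
        apply hne
        rw [h3, map_zero]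
      intro v hv
      refine (mem_supported.1 (hU t i j)) (Finset.mem_coe.2 ((mem_vars_iff_mem_support v).2 ⟨α.val, ?_, hv⟩))
      exact mem_support_iff.2 h2
  rw [Finset.sum_congr rfl fun α _ => h1 α]
  rw [Finset.sum_coe_sort (expo A) (fun α => monomial α (coeff α (A t i j)))]
  conv_rhs => rw [(A t i j).as_sum]
  symm
  refine Finset.sum_subset ?_ ?_
  · intro α hα
    exact mem_expo (mem_support_iff.1 hα)
  · intro α _ hα
    rw [notMem_support_iff.1 hα, map_zero]

theorem sup_bf_le (A : Fin R → Matrix (Fin N) (Fin N') (MvPolynomial (Fin m) ℂ))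
    (E : Finset (Fin m →₀ ℕ)) (q : Fin R → Prop) :
    (⨆ s : Fin R × E, ⨆ _ : q s.1, LinearMap.range (bf A E s).mulVecLin) ≤
      ⨆ t : Fin R, ⨆ _ : q t, colSpace (A t) := by
  refine iSup_le fun s => iSup_le fun hs => ?_
  refine le_trans ?_ (le_iSup₂_of_le (f := fun (t : Fin R) (_ : q t) => colSpace (A t))
    s.1 hs le_rfl)
  unfold colSpace
  exact le_iSup (fun α : Fin m →₀ ℕ => LinearMap.range ((A s.1).map (coeff α)).mulVecLin) s.2.val

theorem sup_bf_le' (A : Fin R → Matrix (Fin N) (Fin N') (MvPolynomial (Fin m) ℂ))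
    (E : Finset (Fin m →₀ ℕ)) (q : Fin R → Prop) :
    (⨆ s : Fin R × E, ⨆ _ : q s.1, LinearMap.range (bf A E s).transpose.mulVecLin) ≤
      ⨆ t : Fin R, ⨆ _ : q t, colSpace (A t).transpose := by
  refine iSup_le fun s => iSup_le fun hs => ?_
  refine le_trans ?_ (le_iSup₂_of_le (f := fun (t : Fin R) (_ : q t) => colSpace (A t).transpose)
    s.1 hs le_rfl)
  unfold colSpace
  exact le_iSup (fun α : Fin m →₀ ℕ =>
    LinearMap.range ((A s.1).transpose.map (coeff α)).mulVecLin) s.2.val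

theorem width_fam {w : ℕ} (A : Fin R → Matrix (Fin N) (Fin N') (MvPolynomial (Fin m) ℂ))
    (E : Finset (Fin m →₀ ℕ)) (𝓠 : Set (Set (Fin R × E)))
    (h𝓠 : ∀ Q ∈ 𝓠, ∃ T : Finset (Fin R), CutLE w A T ∧ Q = {s | s.1 ∈ T}) :
    Tw.Width 𝓠 w (bf A E) := by
  constructor
  · intro Q hQ
    obtain ⟨T, h1, rfl⟩ := h𝓠 Q hQ
    exact (Submodule.finrank_mono (inf_le_inf (sup_bf_le A E (fun t => t ∈ T))
      (sup_bf_le A E (fun t => t ∉ T)))).trans h1.1
  · intro Q hQ
    obtain ⟨T, h1, rfl⟩ := h𝓠 Q hQ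
    exact (Submodule.finrank_mono (inf_le_inf (sup_bf_le' A E (fun t => t ∈ T))
      (sup_bf_le' A E (fun t => t ∉ T)))).trans h1.2

end fam

section rank

variable {κ : Type*} [Fintype κ] {N N' n m : ℕ}

theorem totalDegree_det_le {r δ : ℕ} (Z : Matrix (Fin r) (Fin r) (MvPolynomial (Fin n) ℂ))
    (h : ∀ i j, (Z i j).totalDegree ≤ δ) : Z.det.totalDegree ≤ r * δ := by
  rw [Matrix.det_apply']
  refine totalDegree_finsetSum_le fun σ _ => ?_
  refine (totalDegree_mul _ _).trans ?_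
  have h1 : ((((Equiv.Perm.sign σ : ℤˣ) : ℤ)) : MvPolynomial (Fin n) ℂ).totalDegree = 0 := by
    rw [show ((((Equiv.Perm.sign σ : ℤˣ) : ℤ)) : MvPolynomial (Fin n) ℂ) =
      C (((Equiv.Perm.sign σ : ℤˣ) : ℤ) : ℂ) by simp, totalDegree_C]
  rw [h1, zero_add]
  refine (totalDegree_finsetProd _ _).trans ?_
  refine (Finset.sum_le_sum fun i _ => h (σ i) i).trans ?_
  simp

/-- the matrix in the hidden coordinates -/
noncomputable def comp (φ : Fin m → MvPolynomial (Fin n) ℂ)
    (M : Matrix (Fin N) (Fin N') (MvPolynomial (Fin m) ℂ)) :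
    Matrix (Fin N) (Fin N') (MvPolynomial (Fin n) ℂ) := M.map (aeval φ)

theorem eval_combo (z : κ → MvPolynomial (Fin n) ℂ) (B : κ → Matrix (Fin N) (Fin N') ℂ)
    (q : Fin n → ℂ) : (Tw.combo z B).map (eval q) = ∑ s, eval q (z s) • B s := by
  ext1 i j
  unfold Tw.combo
  simp only [Matrix.map_apply, Matrix.sum_apply, Matrix.smul_apply, map_sum, smul_eq_mul, map_mul,
    eval_C]

theorem map_combo (φ : Fin m → MvPolynomial (Fin n) ℂ) (z : κ → MvPolynomial (Fin m) ℂ)
    (B : κ → Matrix (Fin N) (Fin N') ℂ) :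
    (Tw.combo z B).map (aeval φ) = Tw.combo (fun s => aeval φ (z s)) B := by
  ext1 i j
  unfold Tw.combo
  simp only [Matrix.map_apply, Matrix.sum_apply, Matrix.smul_apply,
    map_sum, smul_eq_mul, map_mul]
  refine Finset.sum_congr rfl fun s _ => ?_
  rw [aeval_C]
  rfl

/-- constant matrices -/
noncomputable def cm {r l : ℕ} (P : Matrix (Fin r) (Fin l) ℂ) :
    Matrix (Fin r) (Fin l) (MvPolynomial (Fin n) ℂ) := P.map (C : ℂ →+* MvPolynomial (Fin n) ℂ)

theorem combo_conj' {r : ℕ} (z : κ → MvPolynomial (Fin n) ℂ) (B : κ → Matrix (Fin N) (Fin N') ℂ)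
    (P : Matrix (Fin r) (Fin N) ℂ) (Q : Matrix (Fin N') (Fin r) ℂ) :
    Tw.combo z (fun s => P * B s * Q) = cm (n := n) P * Tw.combo z B * cm (n := n) Q := by
  unfold Tw.combo cm
  rw [Matrix.mul_sum, Matrix.sum_mul]
  refine Finset.sum_congr rfl fun s _ => ?_
  rw [Matrix.mul_smul, Matrix.smul_mul, Matrix.map_mul, Matrix.map_mul]

theorem totalDegree_conj {r δ : ℕ} (M : Matrix (Fin N) (Fin N') (MvPolynomial (Fin n) ℂ))
    (hM : ∀ i j, (M i j).totalDegree ≤ δ) (P : Matrix (Fin r) (Fin N) ℂ)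
    (Q : Matrix (Fin N') (Fin r) ℂ) (i j : Fin r) :
    ((cm (n := n) P * M * cm (n := n) Q) i j).totalDegree ≤ δ := by
  unfold cm
  rw [Matrix.mul_apply]
  refine totalDegree_finsetSum_le fun l _ => ?_
  refine (totalDegree_mul _ _).trans ?_
  rw [Matrix.map_apply, totalDegree_C, add_zero, Matrix.mul_apply]
  refine totalDegree_finsetSum_le fun l' _ => ?_
  refine (totalDegree_mul _ _).trans ?_
  rw [Matrix.map_apply, totalDegree_C, zero_add]
  exact hM _ _

/-- the ranks of the values, if the determinants are hit -/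
theorem rank_hit {w δ D : ℕ} {𝓠 : Set (Set κ)} (z : κ → MvPolynomial (Fin m) ℂ)
    (B : κ → Matrix (Fin N) (Fin N') ℂ) (hB : Tw.Width 𝓠 w B)
    (φ : Fin m → MvPolynomial (Fin n) ℂ) (pts : Finset (Fin n → ℤ))
    (hdeg : ∀ i j, ((Tw.combo z B).map (aeval φ) i j).totalDegree ≤ δ) (hD : min N N' * δ ≤ D)
    (H : ∀ (r : ℕ) (B' : κ → Matrix (Fin r) (Fin r) ℂ), Tw.Width 𝓠 w B' →
      (aeval φ (Tw.combo z B').det).totalDegree ≤ D → aeval φ (Tw.combo z B').det ≠ 0 →
      ∃ p ∈ pts, eval (fun i => (p i : ℂ)) (aeval φ (Tw.combo z B').det) ≠ 0)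
    (q : Fin n → ℂ) :
    ∃ p ∈ pts, (((Tw.combo z B).map (aeval φ)).map (eval q)).rank ≤
      (((Tw.combo z B).map (aeval φ)).map (eval (fun i => (p i : ℂ)))).rank := by
  obtain ⟨r, hr⟩ : ∃ r, (((Tw.combo z B).map (aeval φ)).map (eval q)).rank = r := ⟨_, rfl⟩
  obtain ⟨P, Q, h1, h2⟩ := Tw.square_reduce hB _ hr
  have hrd : r ≤ min N N' := by
    rw [← hr]
    refine le_min ?_ ?_
    · exact Matrix.rank_le_height _
    · exact Matrix.rank_le_width _
  have h3 : (Tw.combo (fun s => aeval φ (z s)) (fun s => P * B s * Q)) =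
      cm (n := n) P * (Tw.combo z B).map (aeval φ) * cm (n := n) Q := by
    rw [combo_conj', map_combo]
  have h4 : ∀ q : Fin n → ℂ, eval q (aeval φ (Tw.combo z (fun s => P * B s * Q)).det) =
      (P * ((Tw.combo z B).map (aeval φ)).map (eval q) * Q).det := by
    intro q
    rw [aeval_det_combo, RingHom.map_det]
    congr 1
    show (Tw.combo (fun s => aeval φ (z s)) (fun s => P * B s * Q)).map (eval q) = _
    rw [eval_combo, map_combo, eval_combo]
    simp only [Matrix.mul_sum, Matrix.sum_mul, Matrix.mul_smul, Matrix.smul_mul]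
  have h5 : aeval φ (Tw.combo z (fun s => P * B s * Q)).det ≠ 0 := by
    intro h
    apply h1
    rw [← h4 q, h, map_zero]
  have h6 : (aeval φ (Tw.combo z (fun s => P * B s * Q)).det).totalDegree ≤ D := by
    rw [aeval_det_combo, h3]
    exact (totalDegree_det_le _ (totalDegree_conj _ hdeg P Q)).trans
      ((Nat.mul_le_mul_right _ hrd).trans hD)
  obtain ⟨p, hp, h7⟩ := H r (fun s => P * B s * Q) h2 h6 h5
  refine ⟨p, hp, ?_⟩
  rw [hr]
  rw [h4] at h7
  have h8 : (P * ((Tw.combo z B).map (aeval φ)).map (eval (fun i => (p i : ℂ))) * Q).rank = r := by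
    rw [Matrix.rank_of_isUnit _ ((Matrix.isUnit_iff_isUnit_det _).2 (isUnit_iff_ne_zero.2 h7)),
      Fintype.card_fin]
  calc r = (P * ((Tw.combo z B).map (aeval φ)).map (eval (fun i => (p i : ℂ))) * Q).rank :=
        h8.symm
    _ ≤ (P * ((Tw.combo z B).map (aeval φ)).map (eval (fun i => (p i : ℂ)))).rank :=
        Matrix.rank_mul_le_left _ _
    _ ≤ _ := Matrix.rank_mul_le_right _ _

end rank

end Pool.Agent.W943.Pm
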