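import Mathlib
import Pool.Agent.W943.Pm.P2

/-!
Hitting the ranks and the determinants of polynomial matrices of small width.
-/

set_option autoImplicit false

namespace Pool.Agent.W943.Pm

open MvPolynomial Module Pool.Agent.W943.Cut

theorem submersive_le {m n : ℕ} {φ : Fin m → MvPolynomial (Fin n) ℂ} (h : Submersive φ) :
    m ≤ n := by
  classical
  obtain ⟨D, hD⟩ := h
  set A : Matrix (Fin m) (Fin n) ℂ := fun i l => eval 0 (D i l) with hA
  set B : Matrix (Fin n) (Fin m) ℂ := fun l k => eval 0 (pderiv l (φ k)) with hB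
  have h1 : A * B = 1 := by
    ext1 i k
    rw [Matrix.mul_apply, Matrix.one_apply]
    have h2 := congrArg (eval (0 : Fin n → ℂ)) (hD i k)
    rw [map_sum] at h2
    simp only [map_mul] at h2
    rw [hA, hB]
    show ∑ l, eval 0 (D i l) * eval 0 (pderiv l (φ k)) = _
    rw [h2]
    split_ifs <;> simp
  have h2 : (1 : Matrix (Fin m) (Fin m) ℂ).rank = m := by
    rw [Matrix.rank_one, Fintype.card_fin]
  calc m = (A * B).rank := by rw [h1, h2]
    _ ≤ A.rank := Matrix.rank_mul_le_left _ _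
    _ ≤ n := by simpa using Matrix.rank_le_width A

theorem path_rank {N N' n k w δ D : ℕ} {M : Matrix (Fin N) (Fin N') (MvPolynomial (Fin n) ℂ)}
    (hM : PathHidden k w M) (hδ : ∀ i j, (M i j).totalDegree ≤ δ) (hD : min N N' * δ ≤ D)
    (q : Fin n → ℂ) :
    ∃ p ∈ points n (Nis.sd ℂ w k) D,
      (M.map (eval q)).rank ≤ (M.map (eval (fun i => (p i : ℂ)))).rank := by
  classical
  obtain ⟨m, R, φ, a, A, hφ, hA, ha, hw, rfl⟩ := hM
  rw [← combo_fam A (fun t => {a t}) hA] at hδ ⊢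
  refine rank_hit (w := w) (𝓠 := Set.range fun l : ℕ => {s | (s.1 : Fin R).val < l}) _ _ ?_ φ _
    hδ hD ?_ q
  · refine width_fam A _ _ ?_
    rintro _ ⟨l, rfl⟩
    refine ⟨_, hw l, ?_⟩
    ext s
    simp
  · intro r B' hB' hdeg h0
    refine Pool.Agent.H530R2.exists_hit n _ D _ hdeg ?_
    have hz : ∀ s : Fin R × expo A, zf (fun t => {a t}) (expo A) s ∈ supported ℂ {a s.1} :=
      fun s => zf_mem (fun t => {a t}) (expo A) s
    exact path_comp_notMem (zf (fun t => {a t}) (expo A)) (fun s => s.1) a hz ha B' hB'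
      (Pool.Agent.W943.genChain (fun i : Fin n => ((i.val : ℕ) : ℂ))
        (Pool.Agent.H530R2.nodes_injective n)) φ hφ h0

theorem path_det {N n k w D : ℕ} {M : Matrix (Fin N) (Fin N) (MvPolynomial (Fin n) ℂ)}
    (hM : PathHidden k w M) (hD : M.det.totalDegree ≤ D) (h0 : M.det ≠ 0) :
    ∃ p ∈ points n (Nis.sd ℂ w k) D, eval (fun i => (p i : ℂ)) M.det ≠ 0 := by
  classical
  obtain ⟨m, R, φ, a, A, hφ, hA, ha, hw, rfl⟩ := hM
  rw [← combo_fam A (fun t => {a t}) hA, map_combo, ← aeval_det_combo] at hD h0 ⊢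
  refine Pool.Agent.H530R2.exists_hit n _ D _ hD ?_
  have hz : ∀ s : Fin R × expo A, zf (fun t => {a t}) (expo A) s ∈ supported ℂ {a s.1} :=
    fun s => zf_mem (fun t => {a t}) (expo A) s
  have hB : Tw.Width (Set.range fun l : ℕ => {s : Fin R × expo A | (s.1 : Fin R).val < l}) w
      (bf A (expo A)) := by
    refine width_fam A _ _ ?_
    rintro _ ⟨l, rfl⟩
    refine ⟨_, hw l, ?_⟩
    ext s
    simp
  exact path_comp_notMem (zf (fun t => {a t}) (expo A)) (fun s => s.1) a hz ha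
    (bf A (expo A)) hB
    (Pool.Agent.W943.genChain (fun i : Fin n => ((i.val : ℕ) : ℂ))
      (Pool.Agent.H530R2.nodes_injective n)) φ hφ h0

theorem tree_hit {κ : Type*} [Fintype κ] {R n m r b w k d D : ℕ}
    (z : κ → MvPolynomial (Fin m) ℂ) (blk : κ → Fin R)
    (c : Fin m → Fin R) (hz : ∀ s, z s ∈ supported ℂ {v | c v = blk s})
    (B : κ → Matrix (Fin r) (Fin r) ℂ) {P : Finset (Fin R) → Prop} {t : Tw.Tree R}
    (ht : t.set = Finset.univ)
    (hg : Nice (fun S => (Finset.univ.filter fun v => c v ∈ S).card ≤ b) P t)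
    (hB : Tw.Width ((fun T : Finset (Fin R) => {s | blk s ∈ T}) '' t.sets) w B)
    (hb : 3 * b ≤ 2 * (k + 1)) (hn : 2 ^ d * n ≤ k * 3 ^ d)
    (φ : Fin m → MvPolynomial (Fin n) ℂ) (hφ : Submersive φ)
    (hD : (aeval φ (Tw.combo z B).det).totalDegree ≤ D) (h0 : aeval φ (Tw.combo z B).det ≠ 0) :
    ∃ p ∈ points n (k + (w.centralBinom - 1) * d) D,
      eval (fun i => (p i : ℂ)) (aeval φ (Tw.combo z B).det) ≠ 0 := by
  have h1 : Cls n (k + (w.centralBinom - 1) * d) (aeval φ (Tw.combo z B).det) :=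
    hφ.cls (tree_cls z blk c hz B ht hg hB hb
      ((Nat.mul_le_mul_left _ (submersive_le hφ)).trans hn) fun h => h0 (by rw [h, map_zero]))
  refine Cut.hit hD [aeval φ (Tw.combo z B).det] ?_ (by simp)
  intro g hg
  rw [List.mem_singleton] at hg
  rw [hg]
  exact h1

theorem tree_rank {N N' n b w k d δ D : ℕ}
    {M : Matrix (Fin N) (Fin N') (MvPolynomial (Fin n) ℂ)} (hM : TreeHidden b w M)
    (hb : 3 * b ≤ 2 * (k + 1)) (hn : 2 ^ d * n ≤ k * 3 ^ d)
    (hδ : ∀ i j, (M i j).totalDegree ≤ δ) (hD : min N N' * δ ≤ D) (q : Fin n → ℂ) :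
    ∃ p ∈ points n (k + (w.centralBinom - 1) * d) D,
      (M.map (eval q)).rank ≤ (M.map (eval (fun i => (p i : ℂ)))).rank := by
  classical
  obtain ⟨m, R, φ, c, A, t, hφ, hA, ht, hw, rfl⟩ := hM
  rw [← combo_fam A (fun t => {v | c v = t}) hA] at hδ ⊢
  refine rank_hit (w := w) (𝓠 := (fun T : Finset (Fin R) => {s | (s.1 : Fin R) ∈ T}) '' t.sets)
    _ _ ?_ φ _ hδ hD ?_ q
  · refine width_fam A _ _ ?_
    rintro _ ⟨T, hT, rfl⟩
    exact ⟨T, hw.prop T hT, rfl⟩
  · intro r B' hB' hdeg h0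
    have hz : ∀ s : Fin R × expo A, zf (fun t => {v | c v = t}) (expo A) s ∈
        supported ℂ {v | c v = s.1} := fun s => zf_mem (fun t => {v | c v = t}) (expo A) s
    exact tree_hit (zf (fun t => {v | c v = t}) (expo A)) (fun s => s.1) c hz B' ht hw hB' hb hn
      φ hφ hdeg h0

theorem tree_det {N n b w k d D : ℕ} {M : Matrix (Fin N) (Fin N) (MvPolynomial (Fin n) ℂ)}
    (hM : TreeHidden b w M) (hb : 3 * b ≤ 2 * (k + 1)) (hn : 2 ^ d * n ≤ k * 3 ^ d)
    (hD : M.det.totalDegree ≤ D) (h0 : M.det ≠ 0) :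
    ∃ p ∈ points n (k + (w.centralBinom - 1) * d) D, eval (fun i => (p i : ℂ)) M.det ≠ 0 := by
  classical
  obtain ⟨m, R, φ, c, A, t, hφ, hA, ht, hw, rfl⟩ := hM
  rw [← combo_fam A (fun t => {v | c v = t}) hA, map_combo, ← aeval_det_combo] at hD h0 ⊢
  have hz : ∀ s : Fin R × expo A, zf (fun t => {v | c v = t}) (expo A) s ∈
      supported ℂ {v | c v = s.1} := fun s => zf_mem (fun t => {v | c v = t}) (expo A) s
  have hB : Tw.Width ((fun T : Finset (Fin R) => {s : Fin R × expo A | s.1 ∈ T}) '' t.sets) w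
      (bf A (expo A)) := by
    refine width_fam A _ _ ?_
    rintro _ ⟨T, hT, rfl⟩
    exact ⟨T, hw.prop T hT, rfl⟩
  exact tree_hit (zf (fun t => {v | c v = t}) (expo A)) (fun s => s.1) c hz (bf A (expo A)) ht hw
    hB hb hn φ hφ hD h0

/-- matrices over the rational numbers -/
theorem det_rat {N n s D : ℕ} (M : Matrix (Fin N) (Fin N) (MvPolynomial (Fin n) ℚ))
    (hD : M.det.totalDegree ≤ D)
    (H : (M.map (map (algebraMap ℚ ℂ))).det.totalDegree ≤ D →
      (M.map (map (algebraMap ℚ ℂ))).det ≠ 0 →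
      ∃ p ∈ points n s D, eval (fun i => (p i : ℂ)) (M.map (map (algebraMap ℚ ℂ))).det ≠ 0) :
    M.det ≠ 0 ↔ ∃ p ∈ points n s D, (M.map (eval (fun i => (p i : ℚ)))).det ≠ 0 := by
  have h1 : (M.map (map (algebraMap ℚ ℂ))).det = map (algebraMap ℚ ℂ) M.det :=
    (RingHom.map_det _ M).symm
  have h2 : ∀ p : Fin n → ℤ, (M.map (eval (fun i => (p i : ℚ)))).det =
      eval (fun i => (p i : ℚ)) M.det := fun p => (RingHom.map_det _ M).symm
  have h3 : ∀ (p : Fin n → ℤ) (f : MvPolynomial (Fin n) ℚ),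
      eval (fun i => (p i : ℂ)) (map (algebraMap ℚ ℂ) f) =
      algebraMap ℚ ℂ (eval (fun i => (p i : ℚ)) f) := by
    intro p f
    induction f using MvPolynomial.induction_on with
    | C a => simp
    | add f g hf hg => rw [map_add, map_add, map_add, map_add, hf, hg]
    | mul_X f i hf => rw [map_mul, map_mul, map_mul, map_mul, hf, map_X, eval_X, eval_X]; simp
  have h6 : (map (algebraMap ℚ ℂ) M.det).totalDegree ≤ D := by
    refine le_trans ?_ hD
    unfold totalDegree
    exact Finset.sup_mono (support_map_subset _ _)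
  constructor
  · intro h
    have h7 : map (algebraMap ℚ ℂ) M.det ≠ 0 := by
      intro h5
      exact h (map_injective _ (algebraMap ℚ ℂ).injective (by rw [h5, map_zero]))
    obtain ⟨p, hp, h4⟩ := H (by rw [h1]; exact h6) (by rw [h1]; exact h7)
    refine ⟨p, hp, ?_⟩
    rw [h2]
    intro h5
    apply h4
    rw [h1, h3 p M.det, h5, map_zero]
  · rintro ⟨p, _, hp⟩ h
    apply hp
    rw [h2, h, map_zero]

/-- cuts of matrices supported on few common rows and columns -/
theorem cut_of_support {N N' R m w : ℕ}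
    (A : Fin R → Matrix (Fin N) (Fin N') (MvPolynomial (Fin m) ℂ))
    (I : Fin R → Finset (Fin N)) (J : Fin R → Finset (Fin N'))
    (hA : ∀ s i j, A s i j ≠ 0 → i ∈ I s ∧ j ∈ J s) (T : Finset (Fin R))
    (hI : (T.biUnion I ∩ Tᶜ.biUnion I).card ≤ w) (hJ : (T.biUnion J ∩ Tᶜ.biUnion J).card ≤ w) :
    CutLE w A T := by
  constructor
  · refine Tw.inf_le_of_support _ I ?_ T hI
    intro s v hv i hi
    have h2 : colSpace (A s) ≤ LinearMap.ker (LinearMap.proj i : (Fin N → ℂ) →ₗ[ℂ] ℂ) := by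
      refine iSup_le fun α => ?_
      rintro _ ⟨u, rfl⟩
      rw [LinearMap.mem_ker, LinearMap.proj_apply]
      show ((A s).map (coeff α)).mulVec u i = 0
      rw [Matrix.mulVec, dotProduct]
      refine Finset.sum_eq_zero fun j _ => ?_
      rw [Matrix.map_apply]
      by_cases h : A s i j = 0
      · rw [h, coeff_zero, zero_mul]
      · exact absurd (hA s i j h).1 hi
    exact h2 hv
  · refine Tw.inf_le_of_support _ J ?_ T hJ
    intro s v hv j hj
    have h2 : colSpace (A s).transpose ≤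
        LinearMap.ker (LinearMap.proj j : (Fin N' → ℂ) →ₗ[ℂ] ℂ) := by
      refine iSup_le fun α => ?_
      rintro _ ⟨u, rfl⟩
      rw [LinearMap.mem_ker, LinearMap.proj_apply]
      show ((A s).transpose.map (coeff α)).mulVec u j = 0
      rw [Matrix.mulVec, dotProduct]
      refine Finset.sum_eq_zero fun i _ => ?_
      rw [Matrix.map_apply, Matrix.transpose_apply]
      by_cases h : A s i j = 0
      · rw [h, coeff_zero, zero_mul]
      · exact absurd (hA s i j h).2 hj
    exact h2 hv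

end Pool.Agent.W943.Pm
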